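import Pool.Agent.K3h85.BS.Ind

/-!
# The vanishing of motivic cohomology in negative degrees and the conjugates of classes over `ℂ`
-/

set_option autoImplicit false
set_option linter.unusedSectionVars false

open CategoryTheory AlgebraicGeometry Opposite

namespace Pool.Agent.K3h85.BS

/-- The restriction `A ↦ F(Spec A)` of a contravariant functor `F` on schemes to the algebras
over `K`. -/
noncomputable def onAlgebras (K : Type) [CommRing K] (F : Scheme.{0}ᵒᵖ ⥤ ModuleCat.{0} ℚ) :
    CommAlgCat.{0} K ⥤ ModuleCat.{0} ℚ :=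
  forget₂ (CommAlgCat.{0} K) CommRingCat.{0} ⋙ Scheme.Spec.rightOp ⋙ F

/-- `F(Spec A)` -/
noncomputable abbrev overRing (F : Scheme.{0}ᵒᵖ ⥤ ModuleCat.{0} ℚ) (A : Type) [CommRing A] :
    ModuleCat.{0} ℚ :=
  F.obj (op (Spec (CommRingCat.of A)))

/-- The linear map `F(Spec A) → F(Spec B)` induced by a ring homomorphism `A → B`. -/
noncomputable def mapRing (F : Scheme.{0}ᵒᵖ ⥤ ModuleCat.{0} ℚ) {A B : Type} [CommRing A]
    [CommRing B] (f : A →+* B) : overRing F A →ₗ[ℚ] overRing F B :=
  (F.map (Spec.map (CommRingCat.ofHom f)).op).hom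

/-- `X` is a smooth complex variety with the structure morphism `f`: integral, separated, of finite
type and smooth over `ℂ`. -/
structure IsSmoothVariety {X : Scheme.{0}} (f : X ⟶ Spec (CommRingCat.of ℂ)) : Prop where
  integral : IsIntegral X
  separated : IsSeparated f
  locallyOfFiniteType : LocallyOfFiniteType f
  quasiCompact : QuasiCompact f
  smooth : Smooth f

/-- A theory `X ↦ H^k(X, ℚ(j))`, `k, j ∈ ℤ`, of contravariant functors from schemes to vector spaces
over `ℚ` with the following formal properties of rational motivic cohomology. All fields are of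
characteristic zero.

* `continuity`: for every field extension `L / K`, `H^k(Spec L, ℚ(j))` is the filtered colimit of the
  groups of the finitely generated `K`-subalgebras of `L`;
* `transfer`: the groups of a field inject into those of an algebraic extension;
* `symbol`: `H^k(Spec F, ℚ(j))` injects into `H^{k+1}(Spec F(t), ℚ(j+1))` (product with `t`; the
  residue at `t = 0` is a left inverse);
* `coniveau`: for a smooth complex variety `X`, if `H^{k-2c}(Spec κ(x), ℚ(j-c)) = 0` for all `c` and all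
  points `x` of codimension `c`, then `H^k(X, ℚ(j)) = 0`. -/
structure MotivicTheory where
  /-- the functor `X ↦ H^k(X, ℚ(j))` -/
  H (k j : ℤ) : Scheme.{0}ᵒᵖ ⥤ ModuleCat.{0} ℚ
  continuity : ∀ (k j : ℤ) (K L : Type) [Field K] [CharZero K] [Field L] [Algebra K L],
    IsFinitary (onAlgebras K (H k j)) L
  transfer : ∀ (k j : ℤ) (F F' : Type) [Field F] [CharZero F] [Field F'] [Algebra F F']
    [Algebra.IsAlgebraic F F'], Function.Injective (mapRing (H k j) (algebraMap F F'))
  symbol : ∀ (k j : ℤ) (F : Type) [Field F] [CharZero F],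
    ∃ s : overRing (H k j) F →ₗ[ℚ] overRing (H (k + 1) (j + 1)) (RatFunc F), Function.Injective s
  coniveau : ∀ (X : Scheme.{0}) (f : X ⟶ Spec (CommRingCat.of ℂ)), IsSmoothVariety f →
    ∀ k j : ℤ, (∀ (x : X) (c : ℕ), ringKrullDim (X.presheaf.stalk x) = c →
      Subsingleton (overRing (H (k - 2 * c) (j - c)) (X.residueField x))) →
    Subsingleton ((H k j).obj (op X))

/-- The conjugates of the class `α` over `ℂ` under the automorphisms of the field `ℂ`. -/
def conjugates (F : Scheme.{0}ᵒᵖ ⥤ ModuleCat.{0} ℚ) (α : overRing F ℂ) : Set (overRing F ℂ) :=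
  Set.range fun τ : ℂ ≃+* ℂ => mapRing F (τ : ℂ →+* ℂ) α

lemma mapRing_comp (F : Scheme.{0}ᵒᵖ ⥤ ModuleCat.{0} ℚ) {A B C : Type} [CommRing A] [CommRing B]
    [CommRing C] (f : A →+* B) (g : B →+* C) (a : overRing F A) :
    mapRing F (g.comp f) a = mapRing F g (mapRing F f a) := by
  simp only [mapRing, CommRingCat.ofHom_comp, Spec.map_comp, op_comp, Functor.map_comp,
    ModuleCat.hom_comp, LinearMap.comp_apply]

lemma mapA_onAlgebras {K : Type} [CommRing K] (F : Scheme.{0}ᵒᵖ ⥤ ModuleCat.{0} ℚ) {A B : Type}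
    [CommRing A] [Algebra K A] [CommRing B] [Algebra K B] (f : A →ₐ[K] B) (a : overRing F A) :
    mapA (onAlgebras K F) f a = mapRing F (f : A →+* B) a := rfl

lemma map_eq_zero_of_factor (F : Scheme.{0}ᵒᵖ ⥤ ModuleCat.{0} ℚ) {A B C : Type} [CommRing A]
    [CommRing B] [CommRing C] {f : A →+* B} {g : A →+* C} {j : C →+* B} (h : j.comp g = f)
    (h3 : Subsingleton (overRing F C)) (a : overRing F A) : mapRing F f a = 0 := by
  rw [← h, mapRing_comp, Subsingleton.elim (mapRing F g a) 0, map_zero]

/-- A countable field of characteristic zero can be embedded in `ℂ`. -/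
lemma exists_embedding (K : Type) [Field K] [CharZero K] (hK : Cardinal.mk K ≤ Cardinal.aleph0) :
    Nonempty (K →+* ℂ) := by
  obtain ⟨s, hs⟩ := exists_isTranscendenceBasis ℚ K
  obtain ⟨t, ht⟩ := exists_isTranscendenceBasis ℚ ℂ
  have h1 : Cardinal.mk ℂ = Cardinal.mk t :=
    IsAlgClosed.cardinal_eq_cardinal_transcendence_basis_of_aleph0_lt' _ ht
      (le_of_eq Cardinal.mkRat) (by rw [Cardinal.mk_complex]; exact Cardinal.aleph0_lt_continuum)
  obtain ⟨i⟩ : Nonempty (s ↪ t) := by
    rw [← Cardinal.le_def, ← h1, Cardinal.mk_complex]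
    exact ((Cardinal.mk_set_le s).trans hK).trans Cardinal.aleph0_le_continuum
  have hy : AlgebraicIndependent ℚ (fun a : s => ((i a : t) : ℂ)) := ht.1.comp _ i.injective
  let φ : Algebra.adjoin ℚ (Set.range ((↑) : s → K)) →ₐ[ℚ] ℂ :=
    (MvPolynomial.aeval (R := ℚ) (fun a : s => ((i a : t) : ℂ))).comp
      (hs.1.aevalEquiv.symm : _ →ₐ[ℚ] MvPolynomial s ℚ)
  let _ : Algebra (Algebra.adjoin ℚ (Set.range ((↑) : s → K))) ℂ := φ.toRingHom.toAlgebra
  have h3 : Function.Injective φ := by
    intro a b hab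
    exact hs.1.aevalEquiv.symm.injective (hy hab)
  have h4 : FaithfulSMul (Algebra.adjoin ℚ (Set.range ((↑) : s → K))) ℂ :=
    (faithfulSMul_iff_algebraMap_injective _ _).2 h3
  have h5 : Algebra.IsAlgebraic (Algebra.adjoin ℚ (Set.range ((↑) : s → K))) K := hs.isAlgebraic
  exact ⟨((IsAlgClosed.lift (R := Algebra.adjoin ℚ (Set.range ((↑) : s → K))) (S := K)
    (M := ℂ)) : K →+* ℂ)⟩

lemma exists_hom_closure (k : Type) [Field k] [Algebra k ℂ] :
    Nonempty (AlgebraicClosure k →+* ℂ) :=
  ⟨((IsAlgClosed.lift : AlgebraicClosure k →ₐ[k] ℂ) : _ →+* ℂ)⟩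

lemma card_closure (k : Type) [Field k] (hk : Cardinal.mk k ≤ Cardinal.aleph0) :
    Cardinal.mk (AlgebraicClosure k) ≤ Cardinal.aleph0 :=
  (Algebra.IsAlgebraic.cardinalMk_le_max k (AlgebraicClosure k)).trans (max_le hk le_rfl)

/-- **Few conjugates.** If the class `α` over `ℂ` has fewer than `2^ℵ₀` conjugates, then it comes from
each countable algebraically closed subfield. -/
theorem mem_range_of_few (F : Scheme.{0}ᵒᵖ ⥤ ModuleCat.{0} ℚ) (K : Type) [Field K] [IsAlgClosed K]
    [Algebra K ℂ] (hK : Cardinal.mk K ≤ Cardinal.aleph0) (hF : IsFinitary (onAlgebras K F) ℂ)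
    (α : overRing F ℂ) (hα : Cardinal.mk (conjugates F α) < Cardinal.continuum) :
    ∃ β : overRing F K, mapRing F (algebraMap K ℂ) β = α := by
  by_contra hcon
  obtain ⟨s, hs⟩ := exists_isTranscendenceBasis K ℂ
  have h1 : Cardinal.mk ℂ = Cardinal.mk s :=
    IsAlgClosed.cardinal_eq_cardinal_transcendence_basis_of_aleph0_lt' _ hs hK
      (by rw [Cardinal.mk_complex]; exact Cardinal.aleph0_lt_continuum)
  rw [Cardinal.mk_complex] at h1
  have hinf : Infinite s := by
    rw [Cardinal.infinite_iff, ← h1]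
    exact Cardinal.aleph0_le_continuum
  obtain ⟨τ, hτ⟩ := exists_independent hF hs (α := α) (by
    rintro ⟨β, hβ⟩
    exact hcon ⟨β, hβ⟩)
  have h2 : Function.Injective fun i => (⟨mapRing F ((τ i : ℂ ≃+* ℂ) : ℂ →+* ℂ) α, (τ i : ℂ ≃+* ℂ),
      rfl⟩ : conjugates F α) := by
    intro i j hij
    apply hτ.injective
    exact congrArg (fun z => (LinearMap.range (mapA (onAlgebras K F)
      (Algebra.ofId K ℂ))).mkQ z) (congrArg Subtype.val hij)
  exact absurd (h1 ▸ Cardinal.mk_le_of_injective h2) (not_le.2 hα)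

/-- Vanishing over `ℂ` implies vanishing over all fields of characteristic zero. -/
theorem vanishes_of_complex (F : Scheme.{0}ᵒᵖ ⥤ ModuleCat.{0} ℚ)
    (hF : ∀ (K L : Type) [Field K] [CharZero K] [Field L] [Algebra K L],
      IsFinitary (onAlgebras K F) L)
    (htr : ∀ (E E' : Type) [Field E] [CharZero E] [Field E'] [Algebra E E']
      [Algebra.IsAlgebraic E E'], Function.Injective (mapRing F (algebraMap E E')))
    (h0 : Subsingleton (overRing F ℂ)) (E : Type) [Field E] [CharZero E] :
    Subsingleton (overRing F E) := by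
  refine subsingleton_of_forall_eq 0 fun α => ?_
  obtain ⟨A, a, hA, rfl⟩ := (hF ℚ E).exists_rep α
  let E₁ := FractionRing A
  have hc : CharZero E₁ := charZero_of_injective_algebraMap (IsFractionRing.injective A E₁)
  let K₁ := AlgebraicClosure E₁
  have hc1 : CharZero K₁ := charZero_of_injective_algebraMap (algebraMap E₁ K₁).injective
  have hcard : Cardinal.mk K₁ ≤ Cardinal.aleph0 := by
    refine (Algebra.IsAlgebraic.cardinalMk_le_max E₁ K₁).trans (max_le ?_ le_rfl)
    rw [Cardinal.mk_fractionRing]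
    obtain ⟨g, hg⟩ := hA
    rw [← hg]
    refine (Algebra.cardinalMk_adjoin_le ℚ (g : Set E)).trans (max_le (max_le ?_ ?_) le_rfl)
    · exact le_of_eq Cardinal.mkRat
    · exact (Cardinal.lt_aleph0_of_finite _).le
  obtain ⟨i⟩ := exists_embedding K₁ hcard
  let _ : Algebra K₁ ℂ := i.toAlgebra
  have h1 : Function.Injective (mapRing F (algebraMap K₁ ℂ)) :=
    injective_of_isFinitary (hF K₁ ℂ)
  have h2 : Subsingleton (overRing F K₁) := h1.subsingleton
  have h3 : Subsingleton (overRing F E₁) := (htr E₁ K₁).subsingleton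
  let j : E₁ →+* E := IsFractionRing.lift (A := A) (K := E₁) (g := A.val.toRingHom)
    Subtype.val_injective
  have h4 : j.comp (algebraMap A E₁) = (A.val : A →+* E) := by
    ext z
    exact IsFractionRing.lift_algebraMap (g := A.val.toRingHom) Subtype.val_injective z
  exact map_eq_zero_of_factor F h4 h3 a

namespace MotivicTheory

variable (T : MotivicTheory)

/-- The groups of negative degree of all fields vanish if those of degree `-1` of `ℂ` vanish. -/
theorem fields_vanish (h : ∀ j : ℤ, Subsingleton (overRing (T.H (-1) j) ℂ)) (m : ℕ) :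
    ∀ (j : ℤ) (E : Type) [Field E] [CharZero E], Subsingleton (overRing (T.H (-1 - m) j) E) := by
  induction m with
  | zero =>
    intro j E _ _
    have h1 := vanishes_of_complex (T.H (-1) j) (fun K L _ _ _ _ => T.continuity (-1) j K L)
      (fun E E' _ _ _ _ _ => T.transfer (-1) j E E') (h j) E
    simpa using h1
  | succ m ih =>
    intro j E _ _
    have hch : CharZero (RatFunc E) :=
      charZero_of_injective_algebraMap (algebraMap E (RatFunc E)).injective
    have h2 : (-1 - ((m + 1 : ℕ) : ℤ)) + 1 = -1 - (m : ℤ) := by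
      push_cast
      ring
    have h1 : Subsingleton (overRing (T.H ((-1 - ((m + 1 : ℕ) : ℤ)) + 1) (j + 1)) (RatFunc E)) := by
      rw [h2]
      exact ih (j + 1) (RatFunc E)
    obtain ⟨s, hs⟩ := T.symbol (-1 - ((m + 1 : ℕ) : ℤ)) j E
    exact hs.subsingleton

/-- The groups of negative degree of all smooth complex varieties vanish if those of degree `-1`
of `ℂ` vanish. -/
theorem varieties_vanish (h : ∀ j : ℤ, Subsingleton (overRing (T.H (-1) j) ℂ)) (X : Scheme.{0})
    (f : X ⟶ Spec (CommRingCat.of ℂ)) (hf : IsSmoothVariety f) (k j : ℤ) (hk : k < 0) :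
    Subsingleton ((T.H k j).obj (op X)) := by
  refine T.coniveau X f hf k j fun x c _ => ?_
  obtain ⟨m, hm⟩ : ∃ m : ℕ, k - 2 * c = -1 - m := ⟨(-1 - (k - 2 * c)).toNat, by omega⟩
  rw [hm]
  let φ : CommRingCat.of ℂ ⟶ X.residueField x := Spec.preimage (X.fromSpecResidueField x ≫ f)
  have hch : CharZero (X.residueField x) :=
    charZero_of_injective_ringHom (f := φ.hom) φ.hom.injective
  exact T.fields_vanish h m (j - c) (X.residueField x)

end MotivicTheory

end Pool.Agent.K3h85.BS
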