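import Pool.Agent.K3h85.BS.Grp

/-!
# The functor `A ↦ GL_m(B ⊗ A)` is finitary
-/

set_option autoImplicit false
set_option linter.unusedSectionVars false

open CategoryTheory Pool.Agent.Y483 TensorProduct

namespace Pool.Agent.K3h85.BS

variable {K : Type} [Field K] (B : Type) [CommRing B] [Algebra K B]

/-- The homomorphism `B ⊗ A → B ⊗ A'` induced by `A → A'`. -/
noncomputable def tm {A A' : Type} [CommRing A] [Algebra K A] [CommRing A'] [Algebra K A']
    (f : A →ₐ[K] A') : B ⊗[K] A →+* B ⊗[K] A' :=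
  (Algebra.TensorProduct.map (AlgHom.id K B) f).toRingHom

variable {A A' A'' : Type} [CommRing A] [Algebra K A] [CommRing A'] [Algebra K A'] [CommRing A'']
  [Algebra K A'']

lemma tm_tmul (f : A →ₐ[K] A') (b : B) (a : A) : tm B f (b ⊗ₜ a) = b ⊗ₜ f a := rfl

lemma tm_id : tm B (AlgHom.id K A) = RingHom.id _ := by
  refine RingHom.ext fun z => ?_
  change Algebra.TensorProduct.map (AlgHom.id K B) (AlgHom.id K A) z = z
  rw [Algebra.TensorProduct.map_id]
  rfl

lemma tm_comp (f : A →ₐ[K] A') (g : A' →ₐ[K] A'') : tm B (g.comp f) = (tm B g).comp (tm B f) := by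
  refine RingHom.ext fun z => ?_
  induction z using TensorProduct.induction_on with
  | zero => rw [map_zero, map_zero]
  | tmul b a => rfl
  | add x y hx hy => rw [map_add, map_add, hx, hy]

lemma tm_injective (f : A →ₐ[K] A') (hf : Function.Injective f) : Function.Injective (tm B f) := by
  have h1 : Function.Injective (LinearMap.lTensor B f.toLinearMap) :=
    Module.Flat.lTensor_preserves_injective_linearMap _ hf
  exact h1

variable {L : Type} [CommRing L] [Algebra K L]

lemma tm_range_mono {A A' : Subalgebra K L} (h : A ≤ A') {t : B ⊗[K] L}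
    (ht : ∃ s, tm B A.val s = t) : ∃ s, tm B A'.val s = t := by
  obtain ⟨s, rfl⟩ := ht
  refine ⟨tm B (Subalgebra.inclusion h) s, ?_⟩
  have h1 : A'.val.comp (Subalgebra.inclusion h) = A.val := rfl
  have h2 := tm_comp B (Subalgebra.inclusion h) A'.val
  rw [h1] at h2
  rw [h2]
  rfl

lemma exists_tm (t : B ⊗[K] L) : ∃ A : Subalgebra K L, A.FG ∧ ∃ s, tm B A.val s = t := by
  classical
  induction t using TensorProduct.induction_on with
  | zero => exact ⟨⊥, Subalgebra.fg_bot, 0, map_zero _⟩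
  | tmul b a =>
    refine ⟨Algebra.adjoin K ({a} : Finset L), ⟨{a}, rfl⟩,
      b ⊗ₜ ⟨a, Algebra.subset_adjoin (by simp)⟩, ?_⟩
    rw [tm_tmul]
    rfl
  | add x y hx hy =>
    obtain ⟨A, hA, h1⟩ := hx
    obtain ⟨A', hA', h2⟩ := hy
    obtain ⟨s, hs⟩ := tm_range_mono B (le_sup_left : A ≤ A ⊔ A') h1
    obtain ⟨s', hs'⟩ := tm_range_mono B (le_sup_right : A' ≤ A ⊔ A') h2
    exact ⟨A ⊔ A', hA.sup hA', s + s', by rw [map_add, hs, hs']⟩

lemma exists_tm_finset (s : Finset (B ⊗[K] L)) : ∃ A : Subalgebra K L, A.FG ∧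
    ∀ t ∈ s, ∃ a, tm B A.val a = t := by
  classical
  induction s using Finset.induction_on with
  | empty => exact ⟨⊥, Subalgebra.fg_bot, fun t ht => absurd ht (Finset.notMem_empty t)⟩
  | insert t s _ ih =>
    obtain ⟨A, h2, h3⟩ := ih
    obtain ⟨A', h4, h5⟩ := exists_tm B t
    refine ⟨A ⊔ A', h2.sup h4, fun t' ht' => ?_⟩
    rcases Finset.mem_insert.1 ht' with rfl | ht'
    · exact tm_range_mono B le_sup_right h5
    · exact tm_range_mono B le_sup_left (h3 t' ht')

variable (m : ℕ)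

/-- The homomorphism `GL_m(B ⊗ A) → GL_m(B ⊗ A')` induced by `A → A'`. -/
noncomputable def glMap (f : A →ₐ[K] A') : GL (Fin m) (B ⊗[K] A) →* GL (Fin m) (B ⊗[K] A') :=
  Matrix.GeneralLinearGroup.map (tm B f)

lemma glMap_apply (f : A →ₐ[K] A') (g : GL (Fin m) (B ⊗[K] A)) (i j : Fin m) :
    (glMap B m f g : Matrix (Fin m) (Fin m) (B ⊗[K] A')) i j =
      tm B f ((g : Matrix (Fin m) (Fin m) (B ⊗[K] A)) i j) := rfl

lemma glMap_id : glMap B m (AlgHom.id K A) = MonoidHom.id _ := by
  refine MonoidHom.ext fun g => ?_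
  apply Units.ext
  ext i j
  rw [glMap_apply, tm_id]
  rfl

lemma glMap_comp (f : A →ₐ[K] A') (g : A' →ₐ[K] A'') :
    glMap B m (g.comp f) = (glMap B m g).comp (glMap B m f) := by
  refine MonoidHom.ext fun h => ?_
  apply Units.ext
  ext i j
  rw [glMap_apply, tm_comp]
  rfl

/-- The functor `A ↦ GL_m(B ⊗ A)`. -/
noncomputable def glFunctor : CommAlgCat.{0} K ⥤ GrpCat.{0} where
  obj A := GrpCat.of (GL (Fin m) (B ⊗[K] A))
  map f := GrpCat.ofHom (glMap B m f.hom)
  map_id A := by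
    rw [CommAlgCat.hom_id, glMap_id]
    rfl
  map_comp f g := by
    rw [CommAlgCat.hom_comp, glMap_comp]
    rfl

lemma mapG_gl (f : A →ₐ[K] A') : mapG (glFunctor B m) f = glMap B m f := rfl

theorem isFinitaryGrp_gl (L : Type) [CommRing L] [Algebra K L] :
    IsFinitaryGrp (glFunctor (K := K) B m) L := by
  classical
  constructor
  · intro g
    change GL (Fin m) (B ⊗[K] L) at g
    obtain ⟨A, hA, h1⟩ := exists_tm_finset B
      ((Finset.univ.image fun ij : Fin m × Fin m => (g : Matrix (Fin m) (Fin m) (B ⊗[K] L)) ij.1 ij.2) ∪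
      (Finset.univ.image fun ij : Fin m × Fin m =>
        ((g⁻¹ : GL (Fin m) (B ⊗[K] L)) : Matrix (Fin m) (Fin m) (B ⊗[K] L)) ij.1 ij.2))
    choose! p hp using h1
    let M : Matrix (Fin m) (Fin m) (B ⊗[K] A) := fun i j =>
      p ((g : Matrix (Fin m) (Fin m) (B ⊗[K] L)) i j)
    let N : Matrix (Fin m) (Fin m) (B ⊗[K] A) := fun i j =>
      p (((g⁻¹ : GL (Fin m) (B ⊗[K] L)) : Matrix (Fin m) (Fin m) (B ⊗[K] L)) i j)
    have hM : M.map (tm B A.val) = (g : Matrix (Fin m) (Fin m) (B ⊗[K] L)) := by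
      ext i j
      exact hp _ (Finset.mem_union_left _ (Finset.mem_image.2 ⟨(i, j), Finset.mem_univ _, rfl⟩))
    have hN : N.map (tm B A.val) =
        ((g⁻¹ : GL (Fin m) (B ⊗[K] L)) : Matrix (Fin m) (Fin m) (B ⊗[K] L)) := by
      ext i j
      exact hp _ (Finset.mem_union_right _ (Finset.mem_image.2 ⟨(i, j), Finset.mem_univ _, rfl⟩))
    have hinj : Function.Injective fun X : Matrix (Fin m) (Fin m) (B ⊗[K] A) =>
        X.map (tm B A.val) := Matrix.map_injective (tm_injective B A.val Subtype.val_injective)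
    have hMN : M * N = 1 := by
      apply hinj
      change (M * N).map (tm B A.val) = (1 : Matrix (Fin m) (Fin m) (B ⊗[K] A)).map (tm B A.val)
      rw [Matrix.map_mul, hM, hN, Matrix.map_one _ (map_zero _) (map_one _), ← Units.val_mul,
        mul_inv_cancel, Units.val_one]
    have hNM : N * M = 1 := by
      apply hinj
      change (N * M).map (tm B A.val) = (1 : Matrix (Fin m) (Fin m) (B ⊗[K] A)).map (tm B A.val)
      rw [Matrix.map_mul, hM, hN, Matrix.map_one _ (map_zero _) (map_one _), ← Units.val_mul,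
        inv_mul_cancel, Units.val_one]
    refine ⟨A, (⟨M, N, hMN, hNM⟩ : GL (Fin m) (B ⊗[K] A)), hA, ?_⟩
    rw [mapG_gl]
    apply Units.ext
    exact hM
  · intro A g g' h
    rw [mapG_gl] at h
    change GL (Fin m) (B ⊗[K] A) at g g'
    apply Units.ext
    ext i j
    have h1 := congrArg (fun X : GL (Fin m) (B ⊗[K] L) =>
      (X : Matrix (Fin m) (Fin m) (B ⊗[K] L)) i j) h
    exact tm_injective B A.val Subtype.val_injective h1

/-- A natural direct summand of a finitary functor is finitary. -/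
theorem isFinitary_retract {F H : CommAlgCat.{0} K ⥤ ModuleCat.{0} ℚ} (i : F ⟶ H) (r : H ⟶ F)
    (hir : i ≫ r = 𝟙 F) (L : Type) [CommRing L] [Algebra K L] (hH : IsFinitary H L) :
    IsFinitary F L := by
  have nat : ∀ {F H : CommAlgCat.{0} K ⥤ ModuleCat.{0} ℚ} (i : F ⟶ H) {A A' : Type} [CommRing A]
      [Algebra K A] [CommRing A'] [Algebra K A'] (f : A →ₐ[K] A') (a : F.obj (CommAlgCat.of K A)),
      i.app (CommAlgCat.of K A') (mapA F f a) = mapA H f (i.app (CommAlgCat.of K A) a) := by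
    intro F H i A A' _ _ _ _ f a
    have h1 := congrArg (fun g => g.hom a) (i.naturality (CommAlgCat.ofHom f))
    exact h1
  have ret : ∀ (A : Type) [CommRing A] [Algebra K A] (a : F.obj (CommAlgCat.of K A)),
      r.app (CommAlgCat.of K A) (i.app (CommAlgCat.of K A) a) = a := by
    intro A _ _ a
    have h1 := congrArg (fun g : F ⟶ F => (g.app (CommAlgCat.of K A)).hom a) hir
    exact h1
  constructor
  · intro α
    obtain ⟨A, b, hA, hb⟩ := hH.exists_rep (i.app (CommAlgCat.of K L) α)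
    refine ⟨A, r.app (CommAlgCat.of K A) b, hA, ?_⟩
    rw [← nat, hb, ret]
  · intro A a hA ha
    obtain ⟨B, hAB, hB, h1⟩ := hH.exists_zero A (i.app (CommAlgCat.of K A) a) hA (by
      rw [← nat, ha, map_zero])
    refine ⟨B, hAB, hB, ?_⟩
    rw [← ret B (mapA F (Subalgebra.inclusion hAB) a), nat, h1, map_zero]

end Pool.Agent.K3h85.BS
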