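import Pool.Agent.K3h85.BS.Spec

/-!
# Linearly independent conjugates of classes over algebraically closed fields
-/

set_option autoImplicit false
set_option linter.unusedSectionVars false

open MvPolynomial CategoryTheory

namespace Pool.Agent.K3h85.BS

universe u w

section functor

variable {K : Type u} [CommRing K] (H : CommAlgCat.{u} K ⥤ ModuleCat.{w} ℚ)

/-- The linear map `H(A) → H(B)` induced by a homomorphism `A → B` of `K`-algebras. -/
noncomputable def mapA {A B : Type u} [CommRing A] [Algebra K A] [CommRing B] [Algebra K B]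
    (f : A →ₐ[K] B) : H.obj (CommAlgCat.of K A) →ₗ[ℚ] H.obj (CommAlgCat.of K B) :=
  (H.map (CommAlgCat.ofHom f)).hom

variable {A B C : Type u} [CommRing A] [Algebra K A] [CommRing B] [Algebra K B] [CommRing C]
  [Algebra K C]

lemma mapA_comp (f : A →ₐ[K] B) (g : B →ₐ[K] C) (a : H.obj (CommAlgCat.of K A)) :
    mapA H (g.comp f) a = mapA H g (mapA H f a) := by
  simp only [mapA, CommAlgCat.ofHom_comp, Functor.map_comp, ModuleCat.hom_comp,
    LinearMap.comp_apply]

lemma mapA_id (a : H.obj (CommAlgCat.of K A)) : mapA H (AlgHom.id K A) a = a := by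
  simp only [mapA, CommAlgCat.ofHom_id]
  rw [CategoryTheory.Functor.map_id]
  rfl

/-- `H(L)` is the filtered colimit of the `H(A)`, `A` a finitely generated subalgebra of `L`: every
class over `L` comes from a class over some `A`, and a class over `A` which vanishes over `L`
vanishes over some larger `B`. -/
structure IsFinitary (L : Type u) [CommRing L] [Algebra K L] : Prop where
  exists_rep : ∀ α : H.obj (CommAlgCat.of K L), ∃ (A : Subalgebra K L)
    (a : H.obj (CommAlgCat.of K A)), A.FG ∧ mapA H A.val a = α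
  exists_zero : ∀ (A : Subalgebra K L) (a : H.obj (CommAlgCat.of K A)), A.FG →
    mapA H A.val a = 0 → ∃ (B : Subalgebra K L) (hAB : A ≤ B), B.FG ∧
      mapA H (Subalgebra.inclusion hAB) a = 0

end functor

/-- permutations which move a finite set to disjoint sets -/
lemma exists_perms {ι : Type u} [Infinite ι] (S : Finset ι) :
    ∃ σ : ι → Equiv.Perm ι, ∀ i j, i ≠ j → ∀ s ∈ S, ∀ t ∈ S, σ i s ≠ σ j t := by
  classical
  -- an injection
  obtain ⟨f⟩ : Nonempty ((S × ι) ↪ ((S : Set ι)ᶜ : Set ι)) := by
    rw [← Cardinal.le_def]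
    have h1 : Cardinal.mk ((S : Set ι)ᶜ : Set ι) = Cardinal.mk ι :=
      Cardinal.mk_compl_of_infinite _
        ((Cardinal.lt_aleph0_of_finite _).trans_le (Cardinal.aleph0_le_mk ι))
    rw [h1, Cardinal.mk_prod, Cardinal.lift_id, Cardinal.lift_id]
    refine (Cardinal.mul_le_max_of_aleph0_le_right (Cardinal.aleph0_le_mk ι)).trans ?_
    refine max_le ?_ le_rfl
    exact (Cardinal.lt_aleph0_of_finite _).le.trans (Cardinal.aleph0_le_mk ι)
  have hfS : ∀ z, (f z : ι) ∉ S := fun z h => (f z).2 h
  -- the involutions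
  let g : ι → ι → ι := fun i y => if h : y ∈ S then f (⟨y, h⟩, i) else
    if h' : ∃ s : S, (f (s, i) : ι) = y then (h'.choose : ι) else y
  have hg1 : ∀ i (s : S), g i s = f (s, i) := fun i s => by
    simp only [g]
    rw [dif_pos s.2]
  have hg2 : ∀ i (s : S), g i (f (s, i)) = s := fun i s => by
    have h : ∃ s' : S, (f (s', i) : ι) = f (s, i) := ⟨s, rfl⟩
    simp only [g]
    rw [dif_neg (hfS _), dif_pos h]
    have h1 := h.choose_spec
    have h2 := f.injective (Subtype.ext h1)
    exact congrArg Subtype.val (congrArg Prod.fst h2)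
  have hg : ∀ i, Function.Involutive (g i) := by
    intro i y
    by_cases h : y ∈ S
    · have h1 := hg1 i ⟨y, h⟩
      simp only at h1
      rw [h1]
      exact hg2 i ⟨y, h⟩
    · by_cases h' : ∃ s : S, (f (s, i) : ι) = y
      · obtain ⟨s, rfl⟩ := h'
        rw [hg2, hg1]
      · have h1 : g i y = y := by
          simp only [g]
          rw [dif_neg h, dif_neg h']
        rw [h1, h1]
  refine ⟨fun i => (hg i).toPerm, fun i j hij s hs t ht h => ?_⟩
  have h1 : g i s = g j t := h
  have h2 := hg1 i ⟨s, hs⟩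
  have h3 := hg1 j ⟨t, ht⟩
  simp only at h2 h3
  rw [h2, h3] at h1
  have h4 := f.injective (Subtype.ext h1)
  exact hij (congrArg Prod.snd h4)

section fields

variable {K L : Type u} [Field K] [Field L] [Algebra K L] {ι : Type u} {x : ι → L}

/-- permutations of a transcendence basis extend to automorphisms -/
lemma exists_aut [IsAlgClosed L] (hx : IsTranscendenceBasis K x) (σ : Equiv.Perm ι) :
    ∃ τ : L ≃ₐ[K] L, ∀ i, τ (x i) = x (σ i) := by
  have hcl : IsAlgClosure (Algebra.adjoin K (Set.range x)) L :=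
    IsAlgClosed.isAlgClosure_of_transcendence_basis x hx
  let e₀ : Algebra.adjoin K (Set.range x) ≃ₐ[K] Algebra.adjoin K (Set.range x) :=
    (hx.1.aevalEquiv.symm.trans (renameEquiv K σ)).trans hx.1.aevalEquiv
  let e : Algebra.adjoin K (Set.range x) ≃+* Algebra.adjoin K (Set.range x) := e₀.toRingEquiv
  let τ₀ : L ≃+* L := IsAlgClosure.equivOfEquiv L L e
  have hτ : ∀ s : Algebra.adjoin K (Set.range x), τ₀ s = e₀ s := fun s =>
    IsAlgClosure.equivOfEquiv_algebraMap L L e s
  have hK : ∀ c : K, τ₀ (algebraMap K L c) = algebraMap K L c := by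
    intro c
    have h1 := hτ (algebraMap K _ c)
    rw [AlgEquiv.commutes] at h1
    exact h1
  refine ⟨AlgEquiv.ofRingEquiv (f := τ₀) hK, fun i => ?_⟩
  have hmem : x i ∈ Algebra.adjoin K (Set.range x) := Algebra.subset_adjoin ⟨i, rfl⟩
  have h1 := hτ ⟨x i, hmem⟩
  have h2 : (⟨x i, hmem⟩ : Algebra.adjoin K (Set.range x)) = hx.1.aevalEquiv (X i) := by
    apply Subtype.ext
    simp
  have h3 : e₀ ⟨x i, hmem⟩ = hx.1.aevalEquiv (X (σ i)) := by
    rw [h2]
    change hx.1.aevalEquiv (renameEquiv K σ (hx.1.aevalEquiv.symm (hx.1.aevalEquiv (X i)))) = _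
    rw [AlgEquiv.symm_apply_apply]
    simp
  rw [h3] at h1
  refine h1.trans ?_
  simp

lemma isAlgebraic_aut (τ : L ≃ₐ[K] L) {s t : Set L} (h : ∀ z ∈ s, τ z ∈ t) {b : L}
    (hb : IsAlgebraic (Algebra.adjoin K s) b) : IsAlgebraic (Algebra.adjoin K t) (τ b) := by
  obtain ⟨p, hp, hpb⟩ := hb
  have hmem : ∀ z ∈ Algebra.adjoin K s, τ z ∈ Algebra.adjoin K t := by
    intro z hz
    induction hz using Algebra.adjoin_induction with
    | mem z hz => exact Algebra.subset_adjoin (h z hz)
    | algebraMap c => rw [AlgEquiv.commutes]; exact Subalgebra.algebraMap_mem _ c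
    | add a b _ _ ha hb => rw [map_add]; exact Subalgebra.add_mem _ ha hb
    | mul a b _ _ ha hb => rw [map_mul]; exact Subalgebra.mul_mem _ ha hb
  let i : Algebra.adjoin K s →+* Algebra.adjoin K t :=
    { toFun := fun z => ⟨τ z, hmem z z.2⟩
      map_one' := Subtype.ext (map_one τ)
      map_zero' := Subtype.ext (map_zero τ)
      map_mul' := fun a b => Subtype.ext (map_mul τ _ _)
      map_add' := fun a b => Subtype.ext (map_add τ _ _) }
  have hi : Function.Injective i := by
    intro a b hab
    exact Subtype.ext (τ.injective (congrArg Subtype.val hab))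
  refine ⟨p.map i, (Polynomial.map_ne_zero_iff hi).2 hp, ?_⟩
  rw [Polynomial.aeval_def, Polynomial.eval₂_map]
  have h1 : (algebraMap (Algebra.adjoin K t) L).comp i =
      (τ : L →+* L).comp (algebraMap (Algebra.adjoin K s) L) := rfl
  rw [h1]
  have h2 := Polynomial.hom_eval₂ p (algebraMap (Algebra.adjoin K s) L) (τ : L →+* L) b
  refine h2.symm.trans ?_
  rw [← Polynomial.aeval_def, hpb, map_zero]

/-- An element which is algebraic over `K(x)` is algebraic over `K(x i, i ∈ S)`, `S` finite. -/
lemma exists_finset_one {b : L} (hb : IsAlgebraic (Algebra.adjoin K (Set.range x)) b) :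
    ∃ S : Finset ι, IsAlgebraic (Algebra.adjoin K (x '' (S : Set ι))) b := by
  classical
  have key : ∀ z : L, z ∈ Algebra.adjoin K (Set.range x) →
      ∃ S : Finset ι, z ∈ Algebra.adjoin K (x '' (S : Set ι)) := by
    intro z hz
    rw [Algebra.adjoin_range_eq_range_aeval] at hz
    obtain ⟨q, hq⟩ := hz
    obtain ⟨S, q', rfl⟩ := exists_finset_rename q
    refine ⟨S, ?_⟩
    have h1 : aeval x (rename Subtype.val q') = aeval (fun i : S => x i) q' := by
      rw [aeval_rename]
      rfl
    have h2 : (aeval x (rename Subtype.val q') : L) = z := hq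
    rw [← h2, h1]
    have h3 : x '' (S : Set ι) = Set.range (fun i : S => x i) := by
      ext w
      simp
    rw [h3, Algebra.adjoin_range_eq_range_aeval]
    exact ⟨q', rfl⟩
  obtain ⟨p, hp, hpb⟩ := hb
  choose S hS using fun k => key (p.coeff k) (p.coeff k).2
  let T : Finset ι := p.support.biUnion S
  have hT : ∀ k, (p.coeff k : L) ∈ Algebra.adjoin K (x '' (T : Set ι)) := by
    intro k
    by_cases hk : k ∈ p.support
    · refine Algebra.adjoin_mono (Set.image_mono ?_) (hS k)
      intro i hi
      exact Finset.mem_coe.2 (Finset.mem_biUnion.2 ⟨k, hk, hi⟩)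
    · rw [Polynomial.notMem_support_iff.1 hk]
      exact Subalgebra.zero_mem _
  let pL : Polynomial L := p.map (algebraMap _ L)
  have hpL : pL ≠ 0 := (Polynomial.map_ne_zero_iff Subtype.val_injective).2 hp
  have hcoef : (pL.coeffs : Set L) ⊆ (Algebra.adjoin K (x '' (T : Set ι))).toSubring := by
    intro c hc
    obtain ⟨k, -, rfl⟩ := Polynomial.mem_coeffs_iff.1 (Finset.mem_coe.1 hc)
    rw [Polynomial.coeff_map]
    exact hT k
  refine ⟨T, pL.toSubring _ hcoef, ?_, ?_⟩
  · intro h
    apply hpL
    have h1 := Polynomial.map_toSubring pL _ hcoef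
    rw [← h1]
    have h2 : pL.toSubring _ hcoef = 0 := h
    rw [h2, Polynomial.map_zero]
  · have h1 := Polynomial.map_toSubring pL _ hcoef
    rw [Polynomial.aeval_def]
    have h2 : Polynomial.eval b (Polynomial.map
        (Algebra.adjoin K (x '' (T : Set ι))).toSubring.subtype (pL.toSubring _ hcoef)) = 0 := by
      rw [h1]
      rw [Polynomial.eval_map]
      exact hpb
    rw [Polynomial.eval_map] at h2
    exact h2

lemma exists_finset (hx : IsTranscendenceBasis K x) {A : Subalgebra K L} (hA : A.FG) :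
    ∃ S : Finset ι, ∀ b ∈ A, IsAlgebraic (Algebra.adjoin K (x '' (S : Set ι))) b := by
  classical
  obtain ⟨g, rfl⟩ := hA
  choose S hS using fun b : L => exists_finset_one (hx.isAlgebraic.isAlgebraic b)
  refine ⟨g.biUnion S, fun b hb => ?_⟩
  induction hb using Algebra.adjoin_induction with
  | mem z hz =>
    refine isAlgebraic_mono (Algebra.adjoin_mono (Set.image_mono ?_)) (hS z)
    intro i hi
    exact Finset.mem_coe.2 (Finset.mem_biUnion.2 ⟨z, hz, hi⟩)
  | algebraMap c => exact isAlgebraic_algebraMap (⟨algebraMap K L c,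
      Subalgebra.algebraMap_mem _ c⟩ : Algebra.adjoin K (x '' ((g.biUnion S : Finset ι) : Set ι)))
  | add a b _ _ ha hb => exact ha.add hb
  | mul a b _ _ ha hb => exact ha.mul hb

end fields

end Pool.Agent.K3h85.BS
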