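import Pool.Agent.K3h85.BS.Ind
import Pool.Agent.Y483.Main

/-!
# The rational homology of the groups of points of a finitary functor
-/

set_option autoImplicit false
set_option linter.unusedSectionVars false

open CategoryTheory Pool.Agent.Y483

namespace Pool.Agent.K3h85.BS

section chains

variable {X Y : Type}

lemma mp_eq_sum (n : ℕ) (f : X → Y) (z : T n X ℚ) :
    mp n f (LinearMap.id : ℚ →ₗ[ℚ] ℚ) z = ∑ x ∈ z.support, Finsupp.single (f ∘ x) (z x) := by
  conv_lhs => rw [← Finsupp.sum_single z]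
  rw [Finsupp.sum, map_sum]
  refine Finset.sum_congr rfl fun x _ => ?_
  rw [mp_single]
  rfl

lemma mp_injective (n : ℕ) (f : X → Y) (hf : Function.Injective f) :
    Function.Injective (mp n f (LinearMap.id : ℚ →ₗ[ℚ] ℚ)) := by
  rcases isEmpty_or_nonempty X with hX | hX
  · intro z z' h
    rw [← sub_eq_zero]
    have h1 : mp n f (LinearMap.id : ℚ →ₗ[ℚ] ℚ) (z - z') = 0 := by rw [map_sub, h, sub_self]
    obtain ⟨y, hy⟩ : ∃ y, y = z - z' := ⟨_, rfl⟩
    rw [← hy] at h1 ⊢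
    cases n with
    | succ n =>
      ext x
      exact (IsEmpty.false (x 0)).elim
    | zero =>
      have h2 : y = Finsupp.single default (y default) := by
        refine Finsupp.ext fun x => ?_
        rw [Subsingleton.elim x default, Finsupp.single_eq_same]
      rw [h2, mp_single, Finsupp.single_eq_zero] at h1
      rw [h2]
      have h3 : y default = 0 := h1
      rw [h3, Finsupp.single_zero]
  · intro z z' h
    have h1 := congrArg (mp n (Function.invFun f) (LinearMap.id : ℚ →ₗ[ℚ] ℚ)) h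
    rw [mp_mp, mp_mp, Function.invFun_comp hf, LinearMap.id_comp, mp_id, mp_id] at h1
    exact h1

end chains

section functor

variable {K : Type} [CommRing K] (G : CommAlgCat.{0} K ⥤ GrpCat.{0})

/-- The homomorphism `G(A) → G(B)` induced by a homomorphism `A → B` of `K`-algebras. -/
def mapG {A B : Type} [CommRing A] [Algebra K A] [CommRing B] [Algebra K B]
    (f : A →ₐ[K] B) : G.obj (CommAlgCat.of K A) →* G.obj (CommAlgCat.of K B) :=
  (G.map (CommAlgCat.ofHom f)).hom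

lemma mapG_comp {A B C : Type} [CommRing A] [Algebra K A] [CommRing B] [Algebra K B] [CommRing C]
    [Algebra K C] (f : A →ₐ[K] B) (g : B →ₐ[K] C) : mapG G (g.comp f) = (mapG G g).comp (mapG G f) := by
  simp only [mapG, CommAlgCat.ofHom_comp, Functor.map_comp, GrpCat.hom_comp]

/-- `G(L)` is the directed union of the groups `G(A)`, `A` a finitely generated subalgebra. -/
structure IsFinitaryGrp (L : Type) [CommRing L] [Algebra K L] : Prop where
  exists_rep : ∀ g : G.obj (CommAlgCat.of K L), ∃ (A : Subalgebra K L)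
    (a : G.obj (CommAlgCat.of K A)), A.FG ∧ mapG G A.val a = g
  injective : ∀ A : Subalgebra K L, Function.Injective (mapG G A.val)

variable {G} {L : Type} [CommRing L] [Algebra K L]

lemma exists_range_mono {A A' : Subalgebra K L} (h : A ≤ A') {g : G.obj (CommAlgCat.of K L)}
    (hg : ∃ a : G.obj (CommAlgCat.of K A), mapG G A.val a = g) :
    ∃ a : G.obj (CommAlgCat.of K A'), mapG G A'.val a = g := by
  obtain ⟨a, rfl⟩ := hg
  refine ⟨mapG G (Subalgebra.inclusion h) a, ?_⟩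
  have h1 := mapG_comp G (Subalgebra.inclusion h) A'.val
  have h2 : A'.val.comp (Subalgebra.inclusion h) = A.val := rfl
  rw [h2] at h1
  rw [h1]
  rfl

lemma exists_lift_finset (hG : IsFinitaryGrp G L) (A₀ : Subalgebra K L) (hA₀ : A₀.FG)
    (s : Finset (G.obj (CommAlgCat.of K L))) : ∃ A : Subalgebra K L, A₀ ≤ A ∧ A.FG ∧
      ∀ g ∈ s, ∃ a : G.obj (CommAlgCat.of K A), mapG G A.val a = g := by
  classical
  induction s using Finset.induction_on with
  | empty => exact ⟨A₀, le_rfl, hA₀, fun g hg => absurd hg (Finset.notMem_empty g)⟩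
  | insert g s _ ih =>
    obtain ⟨A, h1, h2, h3⟩ := ih
    obtain ⟨A', a', h4, h5⟩ := hG.exists_rep g
    refine ⟨A ⊔ A', h1.trans le_sup_left, h2.sup h4, fun g' hg' => ?_⟩
    rcases Finset.mem_insert.1 hg' with rfl | hg'
    · exact exists_range_mono le_sup_right ⟨a', h5⟩
    · exact exists_range_mono le_sup_left (h3 g' hg')

lemma exists_lift_chain (hG : IsFinitaryGrp G L) (A₀ : Subalgebra K L) (hA₀ : A₀.FG) (n : ℕ)
    (z : T n (G.obj (CommAlgCat.of K L)) ℚ) : ∃ A : Subalgebra K L, A₀ ≤ A ∧ A.FG ∧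
      ∃ z' : T n (G.obj (CommAlgCat.of K A)) ℚ,
        mp n (mapG G A.val) (LinearMap.id : ℚ →ₗ[ℚ] ℚ) z' = z := by
  classical
  obtain ⟨A, h1, h2, h3⟩ := exists_lift_finset hG A₀ hA₀
    (z.support.biUnion fun x => Finset.univ.image x)
  choose! p hp using h3
  refine ⟨A, h1, h2, mp n p (LinearMap.id : ℚ →ₗ[ℚ] ℚ) z, ?_⟩
  rw [mp_mp, LinearMap.id_comp, mp_eq_sum]
  conv_rhs => rw [← Finsupp.sum_single z, Finsupp.sum]
  refine Finset.sum_congr rfl fun x hx => ?_
  congr 1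
  funext i
  exact hp (x i) (Finset.mem_biUnion.2 ⟨x, hx, Finset.mem_image_of_mem _ (Finset.mem_univ i)⟩)

lemma Rpr.unique {G' : Type} [Group G'] {n : ℕ} {z : T n G' ℚ} {x x' : HQ n G'}
    (h : Rpr (Rep.trivial ℚ G' ℚ) n z x) (h' : Rpr (Rep.trivial ℚ G' ℚ) n z x') : x = x' := by
  have h1 := h.sub h'
  rw [sub_self] at h1
  rw [← sub_eq_zero, h1.eq_zero_iff]
  exact Submodule.zero_mem _

lemma dd_mp' {G₁ G₂ : Type} [Group G₁] [Group G₂] (f : G₁ →* G₂) (n : ℕ) (z : T (n + 1) G₁ ℚ) :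
    dd (tQ G₂) n (mp (n + 1) f (LinearMap.id : ℚ →ₗ[ℚ] ℚ) z) =
      mp n f (LinearMap.id : ℚ →ₗ[ℚ] ℚ) (dd (tQ G₁) n z) :=
  dd_mp (ρ := tQ G₁) (τ := tQ G₂) f LinearMap.id (fun _ _ => rfl) n z

lemma cyc_of_mp {G₁ G₂ : Type} [Group G₁] [Group G₂] (f : G₁ →* G₂) (hf : Function.Injective f)
    (n : ℕ) (z : T n G₁ ℚ) (h : Cyc (tQ G₂) n (mp n f (LinearMap.id : ℚ →ₗ[ℚ] ℚ) z)) :
    Cyc (tQ G₁) n z := by
  cases n with
  | zero => exact Cyc.zero _ _
  | succ n =>
    rw [cyc_succ] at h ⊢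
    rw [dd_mp'] at h
    refine mp_injective n f hf ?_
    rw [h, map_zero]

lemma exists_rep_hq (hG : IsFinitaryGrp G L) (n : ℕ) (α : HQ n (G.obj (CommAlgCat.of K L))) :
    ∃ (A : Subalgebra K L) (a : HQ n (G.obj (CommAlgCat.of K A))),
      A.FG ∧ hqMap (mapG G A.val) n a = α := by
  obtain ⟨z, hz⟩ := exists_rpr (Rep.trivial ℚ (G.obj (CommAlgCat.of K L)) ℚ) n α
  obtain ⟨A, -, hA, z', hz'⟩ := exists_lift_chain hG ⊥ Subalgebra.fg_bot n z
  have h0 : Cyc (tQ (G.obj (CommAlgCat.of K L))) n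
      (mp n (mapG G A.val) (LinearMap.id : ℚ →ₗ[ℚ] ℚ) z') := by
    rw [hz']
    exact hz.cyc
  have h1 := cyc_of_mp (mapG G A.val) (hG.injective A) n z' h0
  obtain ⟨a, ha⟩ := exists_class (A := Rep.trivial ℚ (G.obj (CommAlgCat.of K A)) ℚ) n z' h1
  refine ⟨A, a, hA, ?_⟩
  have h2 := ha.hq (mapG G A.val)
  rw [hz'] at h2
  exact Rpr.unique h2 hz

lemma exists_zero_hq (hG : IsFinitaryGrp G L) (n : ℕ) (A : Subalgebra K L)
    (a : HQ n (G.obj (CommAlgCat.of K A))) (hA : A.FG) (ha : hqMap (mapG G A.val) n a = 0) :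
    ∃ (B : Subalgebra K L) (hAB : A ≤ B), B.FG ∧
      hqMap (mapG G (Subalgebra.inclusion hAB)) n a = 0 := by
  obtain ⟨z, hz⟩ := exists_rpr (Rep.trivial ℚ (G.obj (CommAlgCat.of K A)) ℚ) n a
  rw [(hz.hq (mapG G A.val)).eq_zero_iff] at ha
  obtain ⟨w, hw⟩ := ha
  obtain ⟨B, hAB, hB, w', hw'⟩ := exists_lift_chain hG A hA (n + 1) w
  refine ⟨B, hAB, hB, ?_⟩
  rw [(hz.hq (mapG G (Subalgebra.inclusion hAB))).eq_zero_iff]
  refine ⟨w', ?_⟩
  apply mp_injective n (mapG G B.val) (hG.injective B)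
  rw [mp_mp, LinearMap.id_comp]
  have h1 := dd_mp' (mapG G B.val) n w'
  rw [hw'] at h1
  refine h1.symm.trans (hw.trans ?_)
  congr 2
  have h2 := mapG_comp G (Subalgebra.inclusion hAB) B.val
  have h3 : B.val.comp (Subalgebra.inclusion hAB) = A.val := rfl
  rw [h3] at h2
  rw [h2]
  rfl

lemma mapA_hq (n : ℕ) {A B : Type} [CommRing A] [Algebra K A] [CommRing B] [Algebra K B]
    (f : A →ₐ[K] B) (a : HQ n (G.obj (CommAlgCat.of K A))) :
    mapA (G ⋙ hq n) f a = hqMap (mapG G f) n a := rfl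

/-- Homology commutes with directed unions. -/
theorem isFinitary_homology (hG : IsFinitaryGrp G L) (n : ℕ) : IsFinitary (G ⋙ hq n) L where
  exists_rep α := exists_rep_hq hG n α
  exists_zero A a hA ha := exists_zero_hq hG n A a hA ha

end functor

end Pool.Agent.K3h85.BS
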