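import Pool.Agent.K3h85.BS.Conj

/-!
# Classes over an algebraically closed field: injectivity and independence of conjugates
-/

set_option autoImplicit false
set_option linter.unusedSectionVars false

open MvPolynomial CategoryTheory

namespace Pool.Agent.K3h85.BS

universe u w

section

variable {K L : Type u} [Field K] [IsAlgClosed K] [Field L] [Algebra K L]
  {H : CommAlgCat.{u} K ⥤ ModuleCat.{w} ℚ}

/-- a point of a finitely generated algebra -/
lemma exists_point_alg {B : Subalgebra K L} (hB : B.FG) : Nonempty (B →ₐ[K] K) := by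
  have hft : Algebra.FiniteType K B := B.fg_iff_finiteType.1 hB
  obtain ⟨m, hm⟩ := Ideal.exists_maximal B
  have h1 : Algebra.FiniteType K (B ⧸ m) :=
    Algebra.FiniteType.of_surjective (Ideal.Quotient.mkₐ K m) Ideal.Quotient.mk_surjective
  have h2 : Module.Finite K (B ⧸ m) := by
    let _ := Ideal.Quotient.field m
    exact finite_of_finite_type_of_isJacobsonRing K (B ⧸ m)
  have h3 : IsDomain (B ⧸ m) := Ideal.Quotient.isDomain m
  have h5 : Algebra.IsIntegral K (B ⧸ m) := Algebra.IsIntegral.of_finite K (B ⧸ m)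
  have h4 : Function.Bijective (Algebra.ofId K (B ⧸ m)) :=
    IsAlgClosed.algebraMap_bijective_of_isIntegral (k := K) (K := B ⧸ m)
  exact ⟨((AlgEquiv.ofBijective _ h4).symm : _ →ₐ[K] K).comp (Ideal.Quotient.mkₐ K m)⟩

/-- A class over an algebraically closed field which vanishes over a larger field is zero. -/
theorem injective_of_isFinitary (hH : IsFinitary H L) :
    Function.Injective (mapA H (Algebra.ofId K L)) := by
  rw [injective_iff_map_eq_zero]
  intro β hβ
  have h1 : (⊥ : Subalgebra K L).FG := Subalgebra.fg_bot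
  have h2 : ((⊥ : Subalgebra K L).val).comp (Algebra.ofId K (⊥ : Subalgebra K L)) =
      Algebra.ofId K L := Subsingleton.elim _ _
  obtain ⟨B, hAB, hB, h3⟩ := hH.exists_zero ⊥ (mapA H (Algebra.ofId K _) β) h1 (by
    rw [← mapA_comp, h2]
    exact hβ)
  obtain ⟨P⟩ := exists_point_alg hB
  rw [← mapA_comp] at h3
  have h4 := congrArg (mapA H P) h3
  rw [← mapA_comp, map_zero] at h4
  have h5 : P.comp ((Subalgebra.inclusion hAB).comp (Algebra.ofId K _)) = AlgHom.id K K :=
    Subsingleton.elim _ _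
  rw [h5, mapA_id] at h4
  exact h4

variable [IsAlgClosed L]

/-- **Conjugates of classes which are not defined over `K`.** Let `x` be an infinite transcendence
basis of `L` over `K`. If the class `α ∈ H(L)` does not come from `H(K)` then there are automorphisms
`τ i` of `L` over `K`, indexed by the transcendence basis, such that the classes `τ i (α)` are linearly
independent in `H(L) / H(K)`. -/
theorem exists_independent (hH : IsFinitary H L) {ι : Type u} [Infinite ι] {x : ι → L}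
    (hx : IsTranscendenceBasis K x) {α : H.obj (CommAlgCat.of K L)}
    (hα : α ∉ LinearMap.range (mapA H (Algebra.ofId K L))) :
    ∃ τ : ι → (L ≃ₐ[K] L), LinearIndependent ℚ fun i =>
      (LinearMap.range (mapA H (Algebra.ofId K L))).mkQ (mapA H (τ i : L →ₐ[K] L) α) := by
  classical
  obtain ⟨A, a, hA, rfl⟩ := hH.exists_rep α
  obtain ⟨S, hS⟩ := exists_finset hx hA
  obtain ⟨σ, hσ⟩ := exists_perms S
  choose τ hτ using fun i => exists_aut hx (σ i)
  refine ⟨τ, ?_⟩
  obtain ⟨Q, hQ⟩ : ∃ Q, Q = LinearMap.range (mapA H (Algebra.ofId K L)) := ⟨_, rfl⟩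
  rw [← hQ] at hα ⊢
  -- the classes over the base are preserved
  have hbase : ∀ (f : L →ₐ[K] L) (z : H.obj (CommAlgCat.of K L)), z ∈ Q → mapA H f z ∈ Q := by
    rintro f z hz
    rw [hQ] at hz ⊢
    obtain ⟨β, rfl⟩ := hz
    refine ⟨β, ?_⟩
    rw [← mapA_comp]
    congr 1
    congr 1
    exact Subsingleton.elim _ _
  have hnot : ∀ i, mapA H (τ i : L →ₐ[K] L) (mapA H A.val a) ∉ Q := by
    intro i hi
    have h1 := hbase ((τ i).symm : L →ₐ[K] L) _ hi
    rw [← mapA_comp] at h1
    have h2 : ((τ i).symm : L →ₐ[K] L).comp (τ i : L →ₐ[K] L) = AlgHom.id K L := by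
      ext z
      simp
    rw [h2, mapA_id] at h1
    exact hα h1
  rw [linearIndependent_iff']
  intro s c hc i₀ hi₀
  by_contra hne
  -- the relation
  have h1 : ∑ i ∈ s, c i • mapA H (τ i : L →ₐ[K] L) (mapA H A.val a) ∈ Q := by
    rw [← Submodule.Quotient.mk_eq_zero, ← Submodule.mkQ_apply, map_sum]
    simp only [map_smul]
    exact hc
  rw [hQ] at h1
  obtain ⟨β, hβ⟩ := h1
  -- the subalgebras
  obtain ⟨g, hg⟩ := id hA
  let gB : Finset L := s.biUnion fun i => g.image (τ i)
  let B₀ : Subalgebra K L := Algebra.adjoin K (gB : Set L)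
  let gA : Finset L := (s.erase i₀).biUnion fun i => g.image (τ i)
  let A' : Subalgebra K L := Algebra.adjoin K (gA : Set L)
  have hmemA : ∀ (C : Subalgebra K L) (i : ι), (∀ z ∈ g, τ i z ∈ C) → ∀ b ∈ A, τ i b ∈ C := by
    intro C i hC b hb
    rw [← hg] at hb
    induction hb using Algebra.adjoin_induction with
    | mem z hz => exact hC z hz
    | algebraMap c => rw [AlgEquiv.commutes]; exact Subalgebra.algebraMap_mem _ c
    | add a b _ _ ha hb => rw [map_add]; exact Subalgebra.add_mem _ ha hb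
    | mul a b _ _ ha hb => rw [map_mul]; exact Subalgebra.mul_mem _ ha hb
  have hB₀ : ∀ i : s, ∀ b ∈ A, τ i b ∈ B₀ := fun i => hmemA B₀ i fun z hz =>
    Algebra.subset_adjoin (Finset.mem_coe.2 (Finset.mem_biUnion.2 ⟨i, i.2,
      Finset.mem_image_of_mem _ hz⟩))
  have hA'₀ : ∀ i ∈ s.erase i₀, ∀ b ∈ A, τ i b ∈ A' := fun i hi => hmemA A' i fun z hz =>
    Algebra.subset_adjoin (Finset.mem_coe.2 (Finset.mem_biUnion.2 ⟨i, hi,
      Finset.mem_image_of_mem _ hz⟩))
  let f : s → (A →ₐ[K] B₀) := fun i =>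
    ((τ i : L →ₐ[K] L).comp A.val).codRestrict B₀ fun b => hB₀ i b b.2
  have hf : ∀ i : s, B₀.val.comp (f i) = (τ i : L →ₐ[K] L).comp A.val := fun i => rfl
  obtain ⟨z, hz⟩ : ∃ z, z = ∑ i : s, c i • mapA H (f i) a - mapA H (Algebra.ofId K B₀) β :=
    ⟨_, rfl⟩
  have hz0 : mapA H B₀.val z = 0 := by
    rw [hz, map_sub, map_sum]
    simp only [map_smul, ← mapA_comp, hf]
    rw [Finset.sum_coe_sort s (fun i => c i • mapA H ((τ i : L →ₐ[K] L).comp A.val) a)]
    simp only [mapA_comp]
    rw [← hβ, ← mapA_comp, sub_eq_zero]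
    congr 1
  obtain ⟨B, hB₀B, hB, hzB⟩ := hH.exists_zero B₀ z ⟨gB, rfl⟩ hz0
  have hA'B : A' ≤ B := by
    refine le_trans (Algebra.adjoin_mono ?_) hB₀B
    intro w hw
    obtain ⟨i, hi, hw'⟩ := Finset.mem_biUnion.1 (Finset.mem_coe.1 hw)
    exact Finset.mem_coe.2 (Finset.mem_biUnion.2 ⟨i, Finset.mem_of_mem_erase hi, hw'⟩)
  -- the specialization
  obtain ⟨P, hP1, hP2⟩ := exists_specialization hx
    {k | ∃ i ∈ s.erase i₀, ∃ t ∈ S, σ i t = k} A' B ⟨gA, rfl⟩ hB hA'B (by
      intro b hb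
      change b ∈ Algebra.adjoin K (gA : Set L) at hb
      induction hb using Algebra.adjoin_induction with
      | mem w hw =>
        obtain ⟨i, hi, hw'⟩ := Finset.mem_biUnion.1 (Finset.mem_coe.1 hw)
        obtain ⟨v, hv, rfl⟩ := Finset.mem_image.1 hw'
        refine isAlgebraic_aut (τ i) (s := x '' (S : Set ι)) ?_
          (hS v (by rw [← hg]; exact Algebra.subset_adjoin hv))
        rintro _ ⟨t, ht, rfl⟩
        exact ⟨σ i t, ⟨i, hi, t, ht, rfl⟩, (hτ i t).symm⟩
      | algebraMap c => exact isAlgebraic_algebraMap (⟨algebraMap K L c,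
          Subalgebra.algebraMap_mem _ c⟩ : Algebra.adjoin K _)
      | add a b _ _ ha hb => exact ha.add hb
      | mul a b _ _ ha hb => exact ha.mul hb)
  have h2 := congrArg (mapA H P) hzB
  rw [← mapA_comp, map_zero, hz, map_sub, map_sum] at h2
  simp only [map_smul, ← mapA_comp] at h2
  rw [← Finset.add_sum_erase _ _ (Finset.mem_univ (⟨i₀, hi₀⟩ : s)), sub_eq_zero] at h2
  -- the term of `i₀`
  have h3 : (P.comp (Subalgebra.inclusion hB₀B)).comp (f ⟨i₀, hi₀⟩) =
      (τ i₀ : L →ₐ[K] L).comp A.val := by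
    ext b
    refine hP1 (Subalgebra.inclusion hB₀B (f ⟨i₀, hi₀⟩ b)) ?_
    refine isAlgebraic_aut (τ i₀) (s := x '' (S : Set ι)) ?_ (hS b b.2)
    rintro _ ⟨t, ht, rfl⟩
    refine ⟨σ i₀ t, ?_, (hτ i₀ t).symm⟩
    rintro ⟨i, hi, t', ht', h⟩
    exact hσ i i₀ (Finset.ne_of_mem_erase hi) t' ht' t ht h
  -- the other terms
  have h4 : ∀ i ∈ (Finset.univ : Finset s).erase ⟨i₀, hi₀⟩,
      c i • mapA H ((P.comp (Subalgebra.inclusion hB₀B)).comp (f i)) a ∈ Q := by
    intro i hi
    have hi1 : (i : ι) ∈ s.erase i₀ := by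
      refine Finset.mem_erase.2 ⟨fun h => Finset.ne_of_mem_erase hi (Subtype.ext h), i.2⟩
    refine Q.smul_mem _ ?_
    have h5 : ∀ b : A, ((P.comp (Subalgebra.inclusion hB₀B)).comp (f i)) b ∈
        (⊥ : Subalgebra K L) := by
      intro b
      have h6 := hP2 (Subalgebra.inclusion hB₀B (f i b)) (hA'₀ i hi1 b b.2)
      exact Algebra.mem_bot.2 h6
    have h6 : (P.comp (Subalgebra.inclusion hB₀B)).comp (f i) = (Algebra.ofId K L).comp
        ((Algebra.botEquivOfInjective (algebraMap K L).injective : _ →ₐ[K] K).comp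
          (((P.comp (Subalgebra.inclusion hB₀B)).comp (f i)).codRestrict ⊥ h5)) := by
      ext b
      obtain ⟨k, hk⟩ := Algebra.mem_bot.1 (h5 b)
      have h7 : ((P.comp (Subalgebra.inclusion hB₀B)).comp (f i)).codRestrict ⊥ h5 b =
          algebraMap K _ k := Subtype.ext hk.symm
      change _ = algebraMap K L ((Algebra.botEquivOfInjective (algebraMap K L).injective)
        (((P.comp (Subalgebra.inclusion hB₀B)).comp (f i)).codRestrict ⊥ h5 b))
      rw [h7, AlgEquiv.commutes]
      exact hk.symm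
    rw [h6, mapA_comp, hQ]
    exact ⟨_, rfl⟩
  have h5 : c i₀ • mapA H ((P.comp (Subalgebra.inclusion hB₀B)).comp (f ⟨i₀, hi₀⟩)) a ∈ Q := by
    have h6 : mapA H ((P.comp (Subalgebra.inclusion hB₀B)).comp (Algebra.ofId K B₀)) β ∈ Q := by
      have h7 : (P.comp (Subalgebra.inclusion hB₀B)).comp (Algebra.ofId K B₀) =
          Algebra.ofId K L := Subsingleton.elim _ _
      rw [h7, hQ]
      exact ⟨_, rfl⟩
    rw [← h2] at h6
    exact (Submodule.add_mem_iff_left Q (Submodule.sum_mem Q h4)).1 h6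
  rw [h3, mapA_comp] at h5
  have h6 := Q.smul_mem (c i₀)⁻¹ h5
  rw [smul_smul, inv_mul_cancel₀ hne, one_smul] at h6
  exact hnot i₀ h6

end

end Pool.Agent.K3h85.BS
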