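import Mathlib

/-!
# Specialization of finitely generated algebras over algebraically closed fields
-/

set_option autoImplicit false
set_option linter.unusedSectionVars false

open MvPolynomial

namespace Pool.Agent.K3h85.BS

universe u

section place

variable {G L : Type*} [Field G] [Field L] [Algebra G L] [IsAlgClosed G]

/-- A root of a monic polynomial over an algebraically closed field is in this field. -/
lemma mem_range_of_monic {k : Type*} [Field k] (j : G →+* k) {y : k} {p : Polynomial G}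
    (hp : p.Monic) (hy : p.eval₂ j y = 0) : y ∈ j.range := by
  let _ := j.toAlgebra
  have h1 : IsIntegral G y := ⟨p, hp, hy⟩
  have h2 := IsAlgClosed.degree_eq_one_of_irreducible G (minpoly.irreducible h1)
  exact minpoly.mem_range_of_degree_eq_one G y h2

variable {τ : Type*} {x : τ → L}

/-- Let `x` be algebraically independent over the algebraically closed field `G` and `e` a family of
elements of `G`. There are a subalgebra `W` of `L` and a homomorphism `P : W → G` with
`P (x t) = e t`, such that `W` contains `G`, the `x t`, and each element `b` such that `r b` is integral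
over `G[x]` for some `r` with `r(e) ≠ 0`. -/
theorem exists_place (hx : AlgebraicIndependent G x) (e : τ → G) :
    ∃ (W : Subalgebra G L) (P : W →ₐ[G] G),
      (∀ t, ∃ h : x t ∈ W, P ⟨x t, h⟩ = e t) ∧
      ∀ (b : L) (r : MvPolynomial τ G), eval e r ≠ 0 →
        IsIntegral (Algebra.adjoin G (Set.range x)) (aeval x r * b) → b ∈ W := by
  classical
  -- the evaluation
  let ev : Algebra.adjoin G (Set.range x) →ₐ[G] G :=
    (aeval (R := G) e).comp hx.aevalEquiv.symm.toAlgHom
  have hev : ∀ r : MvPolynomial τ G, ∀ h : aeval x r ∈ Algebra.adjoin G (Set.range x),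
      ev ⟨aeval x r, h⟩ = eval e r := by
    intro r h
    have h1 : (⟨aeval x r, h⟩ : Algebra.adjoin G (Set.range x)) = hx.aevalEquiv r := by
      apply Subtype.ext
      simp
    rw [h1]
    change aeval e (hx.aevalEquiv.symm (hx.aevalEquiv r)) = _
    rw [AlgEquiv.symm_apply_apply]
    exact MvPolynomial.aeval_eq_eval e ▸ rfl
  let I : Ideal (Algebra.adjoin G (Set.range x)).toSubring := RingHom.ker (ev : _ →+* G)
  have hI : I ≠ ⊤ := RingHom.ker_ne_top _
  obtain ⟨V, hV1, hV2⟩ := Ideal.image_subset_nonunits_valuationSubring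
    (A := (Algebra.adjoin G (Set.range x)).toSubring) I hI
  have hRV : ∀ r : Algebra.adjoin G (Set.range x), (r : L) ∈ V := fun r => hV1 r.2
  have hGV : ∀ g : G, algebraMap G L g ∈ V := fun g =>
    hRV ⟨_, (Algebra.adjoin G (Set.range x)).algebraMap_mem g⟩
  let π : V →+* IsLocalRing.ResidueField V := IsLocalRing.residue V
  let iG : G →+* V := (algebraMap G L).codRestrict V.toSubring hGV
  let j : G →+* IsLocalRing.ResidueField V := π.comp iG
  have hπ : ∀ r : Algebra.adjoin G (Set.range x), π ⟨r, hRV r⟩ = j (ev r) := by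
    intro r
    have h1 : r - algebraMap G _ (ev r) ∈ I := by
      change ev (r - algebraMap G _ (ev r)) = 0
      rw [map_sub, AlgHom.commutes]
      exact sub_self _
    obtain ⟨h3, h4⟩ := ValuationSubring.mem_nonunits_iff_exists_mem_maximalIdeal.1
      (hV2 ⟨_, h1, rfl⟩)
    have h5 : π ⟨_, h3⟩ = 0 := (IsLocalRing.residue_eq_zero_iff _).2 h4
    have h6 : (⟨_, h3⟩ : V) = ⟨r, hRV r⟩ - iG (ev r) := by
      apply Subtype.ext
      rfl
    rw [h6, map_sub, sub_eq_zero] at h5
    exact h5
  let W : Subalgebra G L :=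
    { carrier := {b | ∃ h : b ∈ V, π ⟨b, h⟩ ∈ j.range}
      mul_mem' := by
        rintro a b ⟨ha, ha'⟩ ⟨hb, hb'⟩
        exact ⟨V.mul_mem _ _ ha hb, by
          have := mul_mem ha' hb'
          rwa [← map_mul] at this⟩
      add_mem' := by
        rintro a b ⟨ha, ha'⟩ ⟨hb, hb'⟩
        exact ⟨V.add_mem _ _ ha hb, by
          have := add_mem ha' hb'
          rwa [← map_add] at this⟩
      algebraMap_mem' := fun g => ⟨hGV g, g, rfl⟩ }
  have hjinj : Function.Injective j := j.injective
  have hP : ∀ b : W, ∃ g : G, j g = π ⟨b, b.2.1⟩ := fun b => b.2.2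
  choose P hP using hP
  let P' : W →ₐ[G] G :=
    { toFun := P
      map_one' := hjinj (by rw [hP, map_one]; exact map_one π)
      map_mul' := fun a b => hjinj (by rw [hP, map_mul, hP, hP, ← map_mul]; rfl)
      map_zero' := hjinj (by rw [hP, map_zero]; exact map_zero π)
      map_add' := fun a b => hjinj (by rw [hP, map_add, hP, hP, ← map_add]; rfl)
      commutes' := fun g => hjinj (by rw [hP]; rfl) }
  refine ⟨W, P', ?_, ?_⟩
  · intro t
    have h1 : x t ∈ Algebra.adjoin G (Set.range x) := Algebra.subset_adjoin ⟨t, rfl⟩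
    have h2 : ev ⟨x t, h1⟩ = e t := by
      have h3 := hev (X t) (by rw [aeval_X]; exact h1)
      simp only [aeval_X, eval_X] at h3
      exact h3
    refine ⟨⟨hRV ⟨_, h1⟩, ev ⟨x t, h1⟩, (hπ ⟨x t, h1⟩).symm⟩, hjinj ?_⟩
    rw [← h2]
    exact (hP _).trans (hπ ⟨x t, h1⟩)
  · intro b r hr hb
    have hrR : aeval x r ∈ Algebra.adjoin G (Set.range x) := by
      rw [Algebra.adjoin_range_eq_range_aeval]
      exact ⟨r, rfl⟩
    have hrV : aeval x r ∈ V := hRV ⟨_, hrR⟩
    have hπr : π ⟨aeval x r, hrV⟩ = j (eval e r) := by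
      have := hπ ⟨_, hrR⟩
      rw [hev] at this
      exact this
    have hunit : IsUnit (⟨aeval x r, hrV⟩ : V) := by
      by_contra hcon
      have h1 : π ⟨aeval x r, hrV⟩ = 0 := (IsLocalRing.residue_eq_zero_iff _).2 hcon
      rw [hπr] at h1
      exact hr (hjinj (by rw [h1, map_zero]))
    obtain ⟨p, hp, hpb⟩ := hb
    -- the product is in the valuation ring
    have hrbV : aeval x r * b ∈ V := by
      have h1 : IsIntegral V (aeval x r * b) := by
        refine ⟨p.map ((Algebra.adjoin G (Set.range x)).subtype.codRestrict V.toSubring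
          fun r => hRV r), hp.map _, ?_⟩
        rw [Polynomial.eval₂_map]
        exact hpb
      obtain ⟨z, hz⟩ := IsIntegrallyClosed.isIntegral_iff.1 h1
      rw [← hz]
      exact z.2
    have h1 : π ⟨aeval x r * b, hrbV⟩ ∈ j.range := by
      refine mem_range_of_monic j (p := p.map (ev : _ →+* G)) (hp.map _) ?_
      rw [Polynomial.eval₂_map]
      have h2 : j.comp (ev : _ →+* G) = π.comp
          ((Algebra.adjoin G (Set.range x)).subtype.codRestrict V.toSubring fun r => hRV r) :=
        RingHom.ext fun r => (hπ r).symm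
      rw [h2]
      have h3 : Polynomial.eval₂ ((Algebra.adjoin G (Set.range x)).subtype.codRestrict V.toSubring
          fun r => hRV r) ⟨aeval x r * b, hrbV⟩ p = 0 := by
        apply Subtype.ext
        have h4 := Polynomial.hom_eval₂ p ((Algebra.adjoin G (Set.range x)).subtype.codRestrict
          V.toSubring fun r => hRV r) V.subtype ⟨aeval x r * b, hrbV⟩
        refine h4.trans ?_
        exact hpb
      rw [← Polynomial.hom_eval₂, h3, map_zero]
    obtain ⟨u, hu⟩ := hunit
    have hbV : b ∈ V := by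
      have h2 : b = ((u⁻¹ : Vˣ) : V) * (aeval x r * b) := by
        have h3 : (((u⁻¹ : Vˣ) : V) : L) * ((u : V) : L) = 1 := by
          have := congrArg (fun z : V => (z : L)) u.inv_mul
          exact this
        rw [hu] at h3
        rw [← mul_assoc, h3, one_mul]
      rw [h2]
      exact V.mul_mem _ _ (SetLike.coe_mem _) hrbV
    refine ⟨hbV, ?_⟩
    have h2 : π ⟨b, hbV⟩ = (j (eval e r))⁻¹ * π ⟨aeval x r * b, hrbV⟩ := by
      have h3 : (⟨aeval x r * b, hrbV⟩ : V) = ⟨aeval x r, hrV⟩ * ⟨b, hbV⟩ := rfl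
      rw [h3, map_mul, hπr, ← mul_assoc, inv_mul_cancel₀, one_mul]
      intro h4
      exact hr (hjinj (by rw [h4, map_zero]))
    rw [h2]
    obtain ⟨g, hg⟩ := h1
    exact ⟨(eval e r)⁻¹ * g, by rw [map_mul, map_inv₀, hg]⟩

end place

section specialization

lemma isAlgebraic_mono {k₁ k₂ L : Type*} [CommRing k₁] [CommRing k₂] [Field L] [Algebra k₁ L]
    [Algebra k₂ L] {R : Subalgebra k₁ L} {S : Subalgebra k₂ L} (h : ∀ z ∈ R, z ∈ S) {b : L}
    (hb : IsAlgebraic R b) : IsAlgebraic S b := by
  obtain ⟨p, hp, hpb⟩ := hb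
  let i : R →+* S := (algebraMap R L).codRestrict S.toSubring fun r => h r r.2
  have hi : Function.Injective i := by
    intro a b hab
    exact Subtype.ext (congrArg (fun z : S => (z : L)) hab)
  refine ⟨p.map i, (Polynomial.map_ne_zero_iff hi).2 hp, ?_⟩
  rw [Polynomial.aeval_def, Polynomial.eval₂_map]
  exact hpb

/-- A multiple which is integral over the ring generated by `x`. -/
lemma exists_multiple {k L τ : Type*} [Field k] [Field L] [Algebra k L] {x : τ → L} {b : L}
    (hb : IsAlgebraic (Algebra.adjoin k (Set.range x)) b) : ∃ f : MvPolynomial τ k, f ≠ 0 ∧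
      IsIntegral (Algebra.adjoin k (Set.range x)) (aeval x f * b) := by
  obtain ⟨y, hy, hyb⟩ := hb.exists_integral_multiple
  obtain ⟨f, hf⟩ : ∃ f : MvPolynomial τ k, aeval x f = (y : L) := by
    have h1 : (y : L) ∈ (aeval x : MvPolynomial τ k →ₐ[k] L).range := by
      rw [← Algebra.adjoin_range_eq_range_aeval]
      exact y.2
    exact h1
  refine ⟨f, ?_, ?_⟩
  · rintro rfl
    rw [map_zero] at hf
    exact hy (Subtype.ext hf.symm)
  · rw [hf]
    exact hyb

section aux

variable {K G L τ : Type*} [Field K] [IsAlgClosed K] [Field G] [IsAlgClosed G] [Field L]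
  [Algebra K G] [Algebra G L] [Algebra K L] [IsScalarTower K G L] {x : τ → L}

/-- a point over `K` at which finitely many polynomials do not vanish -/
lemma exists_point (SB : Finset L) (f : L → MvPolynomial τ G) (hf0 : ∀ b, f b ≠ 0) (SA : Finset L)
    (f' : SA → MvPolynomial τ K) (hf'0 : ∀ b, f' b ≠ 0) :
    ∃ e : τ → K, (∀ b ∈ SB, eval (fun t => algebraMap K G (e t)) (f b) ≠ 0) ∧
      ∀ b : SA, eval e (f' b) ≠ 0 := by
  classical
  have hinf : Infinite K := IsAlgClosed.instInfinite
  have h1 : (∏ b ∈ SB, f b) * ∏ b : SA, MvPolynomial.map (algebraMap K G) (f' b) ≠ 0 := by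
    refine mul_ne_zero (Finset.prod_ne_zero_iff.2 fun b _ => hf0 b)
      (Finset.prod_ne_zero_iff.2 fun b _ => ?_)
    intro h
    exact hf'0 b (MvPolynomial.map_injective _ (algebraMap K G).injective
      (by rw [h, map_zero]))
  by_contra hcon
  push Not at hcon
  apply h1
  refine MvPolynomial.funext_set (s := fun _ => Set.range (algebraMap K G))
    (fun _ => Set.infinite_range_of_injective (algebraMap K G).injective) ?_
  intro y hy
  choose e he using fun t => hy t (Set.mem_univ t)
  have hye : y = fun t => algebraMap K G (e t) := by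
    funext t
    exact (he t).symm
  rw [map_zero, map_mul, map_prod, map_prod]
  by_cases h2 : ∀ b ∈ SB, eval (fun t => algebraMap K G (e t)) (f b) ≠ 0
  · obtain ⟨b, hb⟩ := hcon e h2
    have h3 : ∏ b : SA, eval y (MvPolynomial.map (algebraMap K G) (f' b)) = 0 := by
      refine Finset.prod_eq_zero (Finset.mem_univ b) ?_
      rw [eval_map, hye]
      have h4 := MvPolynomial.eval₂_comp_left (algebraMap K G) (RingHom.id K) e (f' b)
      rw [RingHom.comp_id] at h4
      refine (h4.symm).trans ?_
      have h5 : eval₂ (RingHom.id K) e (f' b) = eval e (f' b) := rfl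
      rw [h5, hb, map_zero]
    rw [h3, mul_zero]
  · push Not at h2
    obtain ⟨b, hb, hb0⟩ := h2
    have h3 : ∏ b ∈ SB, eval y (f b) = 0 := Finset.prod_eq_zero hb (by rw [hye]; exact hb0)
    rw [h3, zero_mul]

theorem exists_spec_aux (hxG : AlgebraicIndependent G x)
    (halg : ∀ b : L, IsAlgebraic (Algebra.adjoin G (Set.range x)) b) (A' B : Subalgebra K L)
    (hA' : A'.FG) (hB : B.FG) (hAB : A' ≤ B)
    (hT : ∀ b ∈ A', IsAlgebraic (Algebra.adjoin K (Set.range x)) b) :
    ∃ P : B →ₐ[K] L,
      (∀ (b : B) (g : G), algebraMap G L g = b → P b = b) ∧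
      ∀ b : B, (b : L) ∈ A' → P b ∈ Set.range (algebraMap K L) := by
  classical
  obtain ⟨SB, hSB⟩ := hB
  obtain ⟨SA, hSA⟩ := hA'
  choose f hf0 hf using fun b : L => exists_multiple (halg b)
  have hT' : ∀ b : SA, ∃ f' : MvPolynomial τ K, f' ≠ 0 ∧
      IsIntegral (Algebra.adjoin K (Set.range x)) (aeval x f' * (b : L)) := by
    intro b
    exact exists_multiple (hT b (by rw [← hSA]; exact Algebra.subset_adjoin b.2))
  choose f' hf'0 hf' using hT'
  obtain ⟨e, he1, he2⟩ := exists_point SB f hf0 SA f' hf'0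
  obtain ⟨W, P₀, hP1, hP2⟩ := exists_place hxG (fun t => algebraMap K G (e t))
  have hBW : ∀ b ∈ B, b ∈ W := by
    have h1 : B ≤ W.restrictScalars K := by
      rw [← hSB]
      refine Algebra.adjoin_le fun b hb => ?_
      exact hP2 b (f b) (he1 b hb) (hf b)
    exact fun b hb => h1 hb
  let P : B →ₐ[K] L :=
    { toFun := fun b => algebraMap G L (P₀ ⟨b, hBW b b.2⟩)
      map_one' := by
        have h1 : P₀ ⟨((1 : B) : L), hBW _ (1 : B).2⟩ = 1 := map_one P₀
        rw [h1, map_one]
      map_mul' := fun a b => by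
        have h1 : P₀ ⟨((a * b : B) : L), hBW _ (a * b).2⟩ = P₀ ⟨a, hBW a a.2⟩ * P₀ ⟨b, hBW b b.2⟩ :=
          map_mul P₀ ⟨a, hBW a a.2⟩ ⟨b, hBW b b.2⟩
        rw [h1, map_mul]
      map_zero' := by
        have h1 : P₀ ⟨((0 : B) : L), hBW _ (0 : B).2⟩ = 0 := map_zero P₀
        rw [h1, map_zero]
      map_add' := fun a b => by
        have h1 : P₀ ⟨((a + b : B) : L), hBW _ (a + b).2⟩ = P₀ ⟨a, hBW a a.2⟩ + P₀ ⟨b, hBW b b.2⟩ :=
          map_add P₀ ⟨a, hBW a a.2⟩ ⟨b, hBW b b.2⟩
        rw [h1, map_add]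
      commutes' := fun c => by
        have h1 : (⟨((algebraMap K B c : B) : L), hBW _ (algebraMap K B c).2⟩ : W) =
            algebraMap G W (algebraMap K G c) := by
          apply Subtype.ext
          exact IsScalarTower.algebraMap_apply K G L c
        change algebraMap G L (P₀ ⟨((algebraMap K B c : B) : L), hBW _ (algebraMap K B c).2⟩) = _
        rw [h1, AlgHom.commutes]
        exact (IsScalarTower.algebraMap_apply K G L c).symm }
  -- the elements with values in `K`
  let W' : Subalgebra K L :=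
    { carrier := {b | ∃ h : b ∈ W, P₀ ⟨b, h⟩ ∈ (algebraMap K G).range}
      mul_mem' := by
        rintro a b ⟨ha, ha'⟩ ⟨hb, hb'⟩
        exact ⟨W.mul_mem ha hb, by
          have := mul_mem ha' hb'
          rwa [← map_mul] at this⟩
      add_mem' := by
        rintro a b ⟨ha, ha'⟩ ⟨hb, hb'⟩
        exact ⟨W.add_mem ha hb, by
          have := add_mem ha' hb'
          rwa [← map_add] at this⟩
      algebraMap_mem' := fun c => by
        have h0 : algebraMap K L c = algebraMap G L (algebraMap K G c) :=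
          IsScalarTower.algebraMap_apply K G L c
        rw [h0]
        exact ⟨W.algebraMap_mem (algebraMap K G c), c, (P₀.commutes (algebraMap K G c)).symm⟩ }
  have hKW : Algebra.adjoin K (Set.range x) ≤ W' := by
    refine Algebra.adjoin_le ?_
    rintro _ ⟨t, rfl⟩
    obtain ⟨h1, h2⟩ := hP1 t
    exact ⟨h1, e t, h2.symm⟩
  have hmem : ∀ p : MvPolynomial τ K, aeval x p ∈ W := by
    intro p
    have h1 : aeval x p ∈ Algebra.adjoin K (Set.range x) := by
      rw [Algebra.adjoin_range_eq_range_aeval]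
      exact ⟨p, rfl⟩
    exact (hKW h1).1
  have hval : ∀ r : MvPolynomial τ K, P₀ ⟨aeval x r, hmem r⟩ = algebraMap K G (eval e r) := by
    intro r
    induction r using MvPolynomial.induction_on with
    | C a =>
      have h1 : (⟨aeval x (C a : MvPolynomial τ K), hmem _⟩ : W) =
          algebraMap G W (algebraMap K G a) := by
        apply Subtype.ext
        have h2 : aeval x (C a : MvPolynomial τ K) = algebraMap K L a := by
          rw [← MvPolynomial.algebraMap_eq, AlgHom.commutes]
        refine h2.trans ?_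
        exact IsScalarTower.algebraMap_apply K G L a
      rw [h1, AlgHom.commutes, eval_C]
      rfl
    | add p q hp hq =>
      have h3 : (⟨aeval x (p + q), hmem _⟩ : W) = ⟨_, hmem p⟩ + ⟨_, hmem q⟩ :=
        Subtype.ext (map_add _ _ _)
      rw [h3, map_add, hp, hq, map_add, map_add]
    | mul_X p t hp =>
      obtain ⟨h2, h4⟩ := hP1 t
      have h3 : (⟨aeval x (p * X t), hmem _⟩ : W) = ⟨_, hmem p⟩ * ⟨_, h2⟩ := Subtype.ext (by
        change aeval x (p * X t) = aeval x p * x t
        rw [map_mul, aeval_X])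
      rw [h3, map_mul, hp, h4, map_mul, eval_X, map_mul]
  -- the homomorphism to `K` on the ring generated by `x`
  let φ₀ : Algebra.adjoin K (Set.range x) →+* (algebraMap K G).range :=
    { toFun := fun r => ⟨P₀ ⟨r, (hKW r.2).1⟩, (hKW r.2).2⟩
      map_one' := Subtype.ext (map_one P₀)
      map_zero' := Subtype.ext (map_zero P₀)
      map_mul' := fun a b => Subtype.ext (map_mul P₀ ⟨a, (hKW a.2).1⟩ ⟨b, (hKW b.2).1⟩)
      map_add' := fun a b => Subtype.ext (map_add P₀ ⟨a, (hKW a.2).1⟩ ⟨b, (hKW b.2).1⟩) }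
  let eK : K ≃+* (algebraMap K G).range := RingEquiv.ofBijective (algebraMap K G).rangeRestrict
    ⟨fun a b hab => (algebraMap K G).injective (congrArg Subtype.val hab),
      (algebraMap K G).rangeRestrict_surjective⟩
  let φ : Algebra.adjoin K (Set.range x) →+* K := (eK.symm : _ →+* K).comp φ₀
  have hφ : ∀ r, algebraMap K G (φ r) = P₀ ⟨r, (hKW r.2).1⟩ := by
    intro r
    have h3 : eK (φ r) = φ₀ r := eK.apply_symm_apply _
    exact congrArg Subtype.val h3
  let ψ : Algebra.adjoin K (Set.range x) →+* W :=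
    { toFun := fun r => ⟨r, (hKW r.2).1⟩
      map_one' := rfl
      map_zero' := rfl
      map_mul' := fun a b => rfl
      map_add' := fun a b => rfl }
  have hcomp : (algebraMap K G).comp φ = (P₀ : W →+* G).comp ψ := RingHom.ext fun r => hφ r
  have hcomp' : (W.val : W →+* L).comp ψ = algebraMap (Algebra.adjoin K (Set.range x)) L := rfl
  have hAW : A' ≤ W' := by
    rw [← hSA]
    refine Algebra.adjoin_le fun b hb => ?_
    have hbW : b ∈ W := hBW b (hAB (by rw [← hSA]; exact Algebra.subset_adjoin hb))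
    have h2 : P₀ (⟨_, hmem (f' ⟨b, hb⟩)⟩ * ⟨b, hbW⟩) ∈ (algebraMap K G).range := by
      obtain ⟨p, hp, hpb⟩ := hf' ⟨b, hb⟩
      refine mem_range_of_monic (algebraMap K G) (p := p.map φ) (hp.map _) ?_
      rw [Polynomial.eval₂_map, hcomp]
      have h4 : Polynomial.eval₂ ψ (⟨_, hmem (f' ⟨b, hb⟩)⟩ * ⟨b, hbW⟩ : W) p = 0 := by
        apply Subtype.ext
        have h5 := Polynomial.hom_eval₂ p ψ (W.val : W →+* L)
            (⟨_, hmem (f' ⟨b, hb⟩)⟩ * ⟨b, hbW⟩ : W)
        rw [hcomp'] at h5
        exact h5.trans hpb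
      have h6 := Polynomial.hom_eval₂ p ψ (P₀ : W →+* G)
            (⟨_, hmem (f' ⟨b, hb⟩)⟩ * ⟨b, hbW⟩ : W)
      rw [h4, map_zero] at h6
      exact h6.symm
    obtain ⟨c, hc⟩ := h2
    rw [map_mul, hval] at hc
    refine ⟨hbW, (eval e (f' ⟨b, hb⟩))⁻¹ * c, ?_⟩
    rw [map_mul, hc, ← mul_assoc, ← map_mul, inv_mul_cancel₀ (he2 ⟨b, hb⟩), map_one, one_mul]
  refine ⟨P, ?_, ?_⟩
  · intro b g hg
    have h1 : (⟨b, hBW b b.2⟩ : W) = algebraMap G W g := Subtype.ext hg.symm
    change algebraMap G L (P₀ ⟨b, hBW b b.2⟩) = b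
    rw [h1, AlgHom.commutes]
    exact hg
  · intro b hb
    obtain ⟨h1, c, hc⟩ := hAW hb
    refine ⟨c, ?_⟩
    change _ = algebraMap G L (P₀ ⟨b, hBW b b.2⟩)
    rw [← hc]
    exact IsScalarTower.algebraMap_apply K G L c

omit [IsAlgClosed K] [IsAlgClosed G] in
lemma mem_of_mem_adjoin {s : Set L} {S : Subalgebra G L} (h : ∀ z ∈ s, z ∈ S) :
    ∀ z ∈ Algebra.adjoin K s, z ∈ S := by
  intro z hz
  induction hz using Algebra.adjoin_induction with
  | mem z hz => exact h z hz
  | algebraMap c =>
    rw [IsScalarTower.algebraMap_apply K G L]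
    exact S.algebraMap_mem _
  | add a b _ _ ha hb => exact S.add_mem ha hb
  | mul a b _ _ ha hb => exact S.mul_mem ha hb

end aux

variable {K L ι : Type*} [Field K] [IsAlgClosed K] [Field L] [IsAlgClosed L] [Algebra K L]
  {x : ι → L}

/-- The algebraic closure of the field generated by the other elements of the basis. -/
lemma exists_closed (hx : AlgebraicIndependent K x) (T : Set ι) :
    ∃ G : IntermediateField K L, IsAlgClosed G ∧ AlgebraicIndependent G (fun t : T => x t) ∧
      ∀ b : L, IsAlgebraic (Algebra.adjoin K (x '' Tᶜ)) b → b ∈ G := by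
  let F₀ := IntermediateField.adjoin K (x '' Tᶜ)
  refine ⟨(algebraicClosure F₀ L).restrictScalars K, ?_, ?_, ?_⟩
  · exact (IsAlgClosure.isAlgClosed F₀ : IsAlgClosed (algebraicClosure F₀ L))
  · exact (IntermediateField.algebraicIndependent_adjoin_iff.2
      (hx.adjoin_of_disjoint (s := Tᶜ) (t := T) disjoint_compl_left)).algebraicClosure
  · intro b hb
    exact mem_algebraicClosure_iff.2 (IntermediateField.isAlgebraic_adjoin_iff.2 hb)

/-- **Specialization.** Let `x` be a transcendence basis of `L` over `K` and `B` a finitely generated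
subalgebra. For each part `T` of the basis, and each finitely generated subalgebra `A'` of
`B` which is algebraic over `K(x t, t ∈ T)`, there is a homomorphism `P : B → L` over `K` which is the
identity on the elements algebraic over `K(x t, t ∉ T)`, and maps `A'` to `K`. -/
theorem exists_specialization (hx : IsTranscendenceBasis K x) (T : Set ι) (A' B : Subalgebra K L)
    (hA' : A'.FG) (hB : B.FG) (hAB : A' ≤ B)
    (hT : ∀ b ∈ A', IsAlgebraic (Algebra.adjoin K (x '' T)) b) :
    ∃ P : B →ₐ[K] L,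
      (∀ b : B, IsAlgebraic (Algebra.adjoin K (x '' Tᶜ)) (b : L) → P b = b) ∧
      ∀ b : B, (b : L) ∈ A' → P b ∈ Set.range (algebraMap K L) := by
  obtain ⟨G, hG1, hG2, hG3⟩ := exists_closed hx.1 T
  have himg : x '' T = Set.range (fun t : T => x t) := by
    ext z
    simp
  have halg : ∀ b : L, IsAlgebraic (Algebra.adjoin G (Set.range fun t : T => x t)) b := by
    intro b
    have h1 : IsAlgebraic (Algebra.adjoin K (Set.range x)) b := hx.isAlgebraic.isAlgebraic b
    refine isAlgebraic_mono (mem_of_mem_adjoin (G := G) ?_) h1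
    rintro _ ⟨i, rfl⟩
    by_cases hi : i ∈ T
    · exact Algebra.subset_adjoin ⟨⟨i, hi⟩, rfl⟩
    · have hmem : x i ∈ Algebra.adjoin K (x '' Tᶜ) := Algebra.subset_adjoin ⟨i, hi, rfl⟩
      have hg := hG3 (x i) (isAlgebraic_algebraMap (⟨x i, hmem⟩ : Algebra.adjoin K (x '' Tᶜ)))
      exact (Algebra.adjoin G (Set.range fun t : T => x t)).algebraMap_mem ⟨x i, hg⟩
  obtain ⟨P, hP1, hP2⟩ := exists_spec_aux hG2 halg A' B hA' hB hAB (by
    rw [← himg]
    exact hT)
  exact ⟨P, fun b hb => hP1 b ⟨b, hG3 b hb⟩ rfl, hP2⟩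

end specialization

end Pool.Agent.K3h85.BS
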